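import Pool.Agent.V7H56.BG.Var

set_option autoImplicit false

/-!
# Kernels of exponent `q ≥ 3`
-/

namespace Pool.Agent.V7H56.BG

universe u

lemma exists_adm {q : ℕ} (h : 3 ≤ q) : ∃ r, Adm r ∧ r ∣ q := by
  rcases Nat.eq_two_pow_or_exists_odd_prime_and_dvd q with ⟨k, rfl⟩ | ⟨p, hp, hd, ho⟩
  · refine ⟨4, Or.inl rfl, ?_⟩
    rcases k with _ | _ | k
    · norm_num at h
    · norm_num at h
    · exact ⟨2 ^ k, by ring⟩
  · refine ⟨p, Or.inr ⟨hp, ?_⟩, hd⟩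
    rintro rfl
    exact absurd ho (by decide)

lemma Ext.mono {r q n : ℕ} (h : r ∣ q) {Γ : Type*} [Group Γ] (hE : Ext r n Γ) : Ext q n Γ := by
  obtain ⟨c, rfl⟩ := h
  obtain ⟨N, h1, h2, h3, h4⟩ := hE
  exact ⟨N, h1, fun x hx => by rw [pow_mul, h2 x hx, one_pow], h3, h4⟩

theorem cont3 {d n q : ℕ} (hq : 3 ≤ q) (h : Infinite (B d n)) :
    Family (ℕ → Bool) fun Γ _ => Ext q n Γ ∧ GenBy (d + 1) Γ := by
  obtain ⟨r, hr, hrq⟩ := exists_adm hq
  exact ((B_infinite h).2.2 r hr).mono fun G _ hG => ⟨hG.1.mono hrq, hG.2⟩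

theorem count3 {d n q : ℕ} (hq : 3 ≤ q) (h : Finite (B d n)) :
    CountMany fun Γ _ => Ext q n Γ ∧ GenBy d Γ :=
  countMany_finite fun _ _ hG => ext_finite (by omega) h hG.2 hG.1

theorem mult3 {q m d : ℕ} (hq : 3 ≤ q)
    (h : CountMany fun G _ => (∀ x : G, x ^ (q * m) = 1) ∧ GenBy (d + 1) G) :
    Finite (B d m) := by
  by_contra hinf
  rw [not_finite_iff_infinite] at hinf
  exact h.not_family ((cont3 hq hinf).mono fun G _ hG => ⟨hG.1.pow, hG.2⟩)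

theorem inL3 {n q : ℕ} (hq : 3 ≤ q) :
    InL.{u} n ↔ ∀ d, CountMany fun G _ => Ext q n G ∧ GenBy d G := by
  rw [inL_iff_B]
  constructor
  · exact fun h d => count3 hq (h d)
  · intro h d
    by_contra hinf
    rw [not_finite_iff_infinite] at hinf
    exact (h (d + 1)).not_family (cont3 hq hinf)

theorem fixed3 {n d q : ℕ} (hq : 3 ≤ q) (h : Finite (B d n) → InL.{u} n) :
    (InL.{u} n ↔ CountMany fun G _ => Ext q n G ∧ GenBy (d + 1) G) ∧
    ((CountMany fun G _ => (∀ x : G, x ^ (q * n) = 1) ∧ GenBy (d + 1) G) → InL.{u} n) := by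
  refine ⟨⟨fun h1 => count3 hq ((inL_iff_B n).1 h1 (d + 1)), fun h1 => ?_⟩,
    fun h1 => h (mult3 hq h1)⟩
  apply h
  by_contra hinf
  rw [not_finite_iff_infinite] at hinf
  exact h1.not_family (cont3 hq hinf)

end Pool.Agent.V7H56.BG
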