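import Pool.Agent.V7H56.BG.Fin

set_option autoImplicit false

/-!
# Varieties, and the free Burnside groups
-/

namespace Pool.Agent.V7H56.BG

open Subgroup

universe u

/-- the variety is locally finite -/
def LF (W : Set (FreeGroup ℕ)) : Prop :=
  ∀ (G : Type) [Group G], Sat W G → ∀ S : Set G, S.Finite → Finite (Subgroup.closure S)

lemma genBy_closure_finite {G : Type*} [Group G] (S : Set G) (hS : S.Finite) :
    ∃ d, GenBy d (Subgroup.closure S) := by
  obtain ⟨d, ⟨e⟩⟩ := hS.exists_equiv_fin S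
  refine ⟨d, genBy_closure (fun i => (e.symm i).1) ?_⟩
  congr 1
  ext x
  constructor
  · rintro ⟨i, rfl⟩
    exact (e.symm i).2
  · intro hx
    exact ⟨e ⟨x, hx⟩, by simp⟩

lemma finite_of_LF {W : Set (FreeGroup ℕ)} (h : LF W) {G : Type} [Group G] (hG : Sat W G)
    (hf : Group.FG G) : Finite G := by
  obtain ⟨S, hS, hfin⟩ := Group.fg_iff.1 hf
  have h1 := h G hG S hfin
  rw [hS] at h1
  exact Finite.of_equiv _ (Subgroup.topEquiv (G := G)).toEquiv

lemma LF_of {W : Set (FreeGroup ℕ)}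
    (h : ∀ (d : ℕ) (G : Type) [Group G], Sat W G → GenBy d G → Finite G) : LF W := by
  intro G _ hG S hS
  obtain ⟨d, hd⟩ := genBy_closure_finite S hS
  exact h d _ (hG.of_injective (Subgroup.closure S).subtype (Subgroup.subtype_injective _)) hd

theorem LF_iff_fin (W : Set (FreeGroup ℕ)) :
    LF W ↔ ∀ d, FinMany fun G _ => Sat W G ∧ GenBy d G := by
  constructor
  · intro h d
    have : Finite (FW W d) := finite_of_LF h (FW_sat W d) (FW_gen W d).fg
    exact FinMany.of_quot (FW W d) fun G _ hG => FW_univ hG.1 hG.2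
  · intro h
    refine LF_of fun d G _ hG hd => ?_
    by_contra hinf
    rw [not_finite_iff_infinite] at hinf
    exact (h (d + 1)).not_family (main G hG hd hinf).1

theorem LF_iff_min (W : Set (FreeGroup ℕ)) :
    LF W ↔ ∀ (G : Type) [Group G], Sat W G → Group.FG G → ¬ NoMin G := by
  constructor
  · intro h G _ hG hf
    have := finite_of_LF h hG hf
    exact not_noMin_finite
  · intro h
    refine LF_of fun d G _ hG hd => ?_
    by_contra hinf
    rw [not_finite_iff_infinite] at hinf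
    obtain ⟨Γ, _, h1, h2, h3⟩ := (main G hG hd hinf).2
    exact h Γ h1 h2.fg h3

/-- the law `x ^ n = 1` -/
def Wn (n : ℕ) : Set (FreeGroup ℕ) := {FreeGroup.of 0 ^ n}

lemma sat_Wn {n : ℕ} {G : Type*} [Group G] : Sat (Wn n) G ↔ ∀ x : G, x ^ n = 1 := by
  constructor
  · intro h x
    have h1 := h _ (Set.mem_singleton _) fun _ => x
    simpa using h1
  · rintro h w hw f
    rw [Wn, Set.mem_singleton_iff] at hw
    subst hw
    rw [map_pow]
    exact h _

lemma FinMany.mono {P Q : (G : Type) → [Group G] → Prop} (h : FinMany P)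
    (hPQ : ∀ (G : Type) [Group G], Q G → P G) : FinMany Q := by
  obtain ⟨m, Γ, i, hΓ⟩ := h
  exact ⟨m, Γ, i, fun G _ hG => hΓ G (hPQ G hG)⟩

lemma CountMany.mono {P Q : (G : Type) → [Group G] → Prop} (h : CountMany P)
    (hPQ : ∀ (G : Type) [Group G], Q G → P G) : CountMany Q := by
  obtain ⟨Γ, i, hΓ⟩ := h
  exact ⟨Γ, i, fun G _ hG => hΓ G (hPQ G hG)⟩

lemma Family.mono {ι : Type} {P Q : (G : Type) → [Group G] → Prop} (h : Family ι P)
    (hPQ : ∀ (G : Type) [Group G], P G → Q G) : Family ι Q := by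
  obtain ⟨Γ, i, h1, h2⟩ := h
  exact ⟨Γ, i, fun k => hPQ _ (h1 k), h2⟩

theorem B_infinite {d n : ℕ} (h : Infinite (B d n)) :
    Family ℕ (fun Γ _ => (∀ x : Γ, x ^ n = 1) ∧ GenBy (d + 1) Γ) ∧ NoMin (B (d + 1) n) ∧
      ∀ q, Adm q → Family (ℕ → Bool) (fun Γ _ => Ext q n Γ ∧ GenBy (d + 1) Γ) := by
  have h1 := main (B d n) (sat_Wn.2 (B_pow d n)) (B_gen d n) h
  have h0 : Family ℕ fun Γ _ => Sat (Wn n) Γ ∧ GenBy (d + 1) Γ := h1.1
  refine ⟨h0.mono fun G _ hG => ⟨sat_Wn.1 hG.1, hG.2⟩, ?_, fun q hq =>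
    cont_main hq (B d n) (B_gen d n) (B_pow d n)⟩
  obtain ⟨Γ, _, h2, h3, h4⟩ := h1.2
  obtain ⟨f, hf⟩ := B_univ (sat_Wn.1 h2) h3
  exact h4.of_surjective f hf

theorem B_finite {d n : ℕ} (h : Finite (B d n)) :
    FinMany (fun Γ _ => (∀ x : Γ, x ^ n = 1) ∧ GenBy d Γ) ∧ ¬ NoMin (B d n) ∧
      ∀ q, Adm q → (∀ (Γ : Type) [Group Γ], Ext q n Γ → GenBy d Γ → Finite Γ) ∧
        CountMany (fun Γ _ => Ext q n Γ ∧ GenBy d Γ) :=
  ⟨FinMany.of_quot (B d n) fun G _ hG => B_univ hG.1 hG.2, not_noMin_finite, fun _ hq =>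
    ⟨fun _ _ h1 h2 => ext_finite hq.pos h h2 h1, countMany_finite fun _ _ hG =>
      ext_finite hq.pos h hG.2 hG.1⟩⟩

/-- `n ∈ 𝓛` -/
def InL (n : ℕ) : Prop := ∀ (G : Type u) [Group G], (∀ x : G, x ^ n = 1) →
  ∀ S : Set G, S.Finite → Finite (Subgroup.closure S)

theorem inL_iff_B (n : ℕ) : InL.{u} n ↔ ∀ d, Finite (B d n) := by
  constructor
  · intro h d
    obtain ⟨s, hs⟩ := B_gen d n
    let G := ULift.{u} (B d n)
    have h1 := h G (fun x => ULift.ext _ _ (B_pow d n x.down)) (Set.range fun i => ULift.up (s i))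
      (Set.finite_range _)
    have h2 : Subgroup.closure (Set.range fun i => (ULift.up (s i) : G)) = ⊤ := by
      have h4 : (Subgroup.closure (Set.range s)).map
          (MulEquiv.ulift : ULift.{u} (B d n) ≃* B d n).symm.toMonoidHom = ⊤ := by
        rw [hs]
        exact Subgroup.map_top_of_surjective _ (MulEquiv.ulift : ULift.{u} (B d n) ≃* B d n).symm.surjective
      rw [MonoidHom.map_closure, ← Set.range_comp] at h4
      exact h4
    rw [h2] at h1
    have h5 : Finite G := Finite.of_equiv _ (Subgroup.topEquiv (G := G)).toEquiv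
    exact Finite.of_equiv _ (Equiv.ulift.{u} (α := B d n))
  · intro h G _ hG S hS
    obtain ⟨d, hd⟩ := genBy_closure_finite S hS
    have h1 : ∀ x : Subgroup.closure S, x ^ n = 1 := fun x => Subtype.ext (hG x.1)
    obtain ⟨f, hf⟩ := B_univ h1 hd
    have := h d
    exact Finite.of_surjective f hf

lemma GenBy.mono {d e : ℕ} {G : Type*} [Group G] (h : GenBy d G) (hde : d ≤ e) : GenBy e G := by
  induction e, hde using Nat.le_induction with
  | base => exact h
  | succ e _ ih => exact ih.succ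

lemma B_le {d e n : ℕ} (h : d ≤ e) (hf : Finite (B e n)) : Finite (B d n) := by
  obtain ⟨f, hs⟩ := B_univ (B_pow d n) ((B_gen d n).mono h)
  exact Finite.of_surjective f hs

/-- the equivalences for a fixed number of generators -/
theorem fixed {n d : ℕ} (h : Finite (B d n) → InL.{u} n) :
    (InL.{u} n ↔ FinMany fun G _ => (∀ x : G, x ^ n = 1) ∧ GenBy (d + 1) G) ∧
    (InL.{u} n ↔ ¬ NoMin (B (d + 1) n)) ∧
    ∀ q, Adm q → (InL.{u} n ↔ CountMany fun G _ => Ext q n G ∧ GenBy (d + 1) G) := by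
  have key : ¬ InL.{u} n → Infinite (B d n) := by
    intro h1
    rw [← not_finite_iff_infinite]
    exact fun h2 => h1 (h h2)
  have key2 : InL.{u} n → Finite (B (d + 1) n) := fun h1 => (inL_iff_B n).1 h1 (d + 1)
  refine ⟨⟨fun h1 => (B_finite (key2 h1)).1, fun h1 => ?_⟩,
    ⟨fun h1 => (B_finite (key2 h1)).2.1, fun h1 => ?_⟩,
    fun q hq => ⟨fun h1 => ((B_finite (key2 h1)).2.2 q hq).2, fun h1 => ?_⟩⟩
  · by_contra h2
    exact h1.not_family (B_infinite (key h2)).1
  · by_contra h2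
    exact h1 (B_infinite (key h2)).2.1
  · by_contra h2
    exact h1.not_family ((B_infinite (key h2)).2.2 q hq)

theorem all (n : ℕ) :
    (InL.{u} n ↔ ∀ d, FinMany fun G _ => (∀ x : G, x ^ n = 1) ∧ GenBy d G) ∧
    (InL.{u} n ↔ ∀ d, ¬ NoMin (B d n)) ∧
    ∀ q, Adm q → (InL.{u} n ↔ ∀ d, CountMany fun G _ => Ext q n G ∧ GenBy d G) := by
  have key : ¬ InL.{u} n → ∃ d, Infinite (B d n) := by
    intro h1
    rw [inL_iff_B] at h1
    push Not at h1
    obtain ⟨d, hd⟩ := h1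
    exact ⟨d, hd⟩
  have key2 : InL.{u} n → ∀ d, Finite (B d n) := (inL_iff_B n).1
  refine ⟨⟨fun h1 d => (B_finite (key2 h1 d)).1, fun h1 => ?_⟩,
    ⟨fun h1 d => (B_finite (key2 h1 d)).2.1, fun h1 => ?_⟩,
    fun q hq => ⟨fun h1 d => ((B_finite (key2 h1 d)).2.2 q hq).2, fun h1 => ?_⟩⟩
  · by_contra h2
    obtain ⟨d, hd⟩ := key h2
    exact (h1 (d + 1)).not_family (B_infinite hd).1
  · by_contra h2
    obtain ⟨d, hd⟩ := key h2
    exact (h1 (d + 1)) (B_infinite hd).2.1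
  · by_contra h2
    obtain ⟨d, hd⟩ := key h2
    exact (h1 (d + 1)).not_family ((B_infinite hd).2.2 q hq)

/-- multiples -/
theorem mult {q m d : ℕ} (hq : Adm q)
    (h : CountMany fun G _ => (∀ x : G, x ^ (q * m) = 1) ∧ GenBy (d + 1) G) :
    Finite (B d m) := by
  by_contra hinf
  rw [not_finite_iff_infinite] at hinf
  exact h.not_family (((B_infinite hinf).2.2 q hq).mono fun G _ hG => ⟨hG.1.pow, hG.2⟩)

end Pool.Agent.V7H56.BG
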