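import Pool.Agent.V7H56.BG.Heis

set_option autoImplicit false

/-!
# Continuum many quotients
-/

namespace Pool.Agent.V7H56.BG

open Subgroup

lemma GenBy.countable {d : ℕ} {G : Type*} [Group G] (h : GenBy d G) : Countable G := by
  obtain ⟨s, hs⟩ := h
  have h1 : Function.Surjective (FreeGroup.lift s) := by
    rw [← MonoidHom.range_eq_top, FreeGroup.range_lift_eq_closure]
    exact hs
  have h2 : Countable (FreeGroup (Fin d)) := by
    have h3 : Function.Surjective (FreeGroup.mk (α := Fin d)) := Quot.mk_surjective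
    exact h3.countable
  exact h1.countable

theorem continuum {Γ : Type} [Group Γ] {d : ℕ} (h : GenBy d Γ) (Z : Set ℕ → Subgroup Γ)
    [hZ : ∀ S, (Z S).Normal] (hinj : Function.Injective Z) :
    ∃ S : (ℕ → Bool) → Set ℕ, ∀ c c', Nonempty ((Γ ⧸ Z (S c)) ≃* (Γ ⧸ Z (S c'))) → c = c' := by
  obtain ⟨s, hs⟩ := h
  have hcount : Countable Γ := GenBy.countable ⟨s, hs⟩
  let r : Setoid (Set ℕ) :=
    { r := fun S T => Nonempty ((Γ ⧸ Z S) ≃* (Γ ⧸ Z T))
      iseqv := ⟨fun S => ⟨MulEquiv.refl _⟩, fun ⟨e⟩ => ⟨e.symm⟩, fun ⟨e⟩ ⟨f⟩ => ⟨e.trans f⟩⟩ }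
  have hfib : ∀ q : Quotient r, Cardinal.mk ((Quotient.mk r) ⁻¹' {q}) ≤ Cardinal.aleph0 := by
    intro q
    obtain ⟨T, rfl⟩ := Quotient.exists_rep q
    rw [Cardinal.mk_le_aleph0_iff]
    have h1 : ∀ S : (Quotient.mk r) ⁻¹' {Quotient.mk r T}, Nonempty ((Γ ⧸ Z S.1) ≃* (Γ ⧸ Z T)) :=
      fun S => Quotient.exact (s := r) S.2
    let e' : ∀ S : (Quotient.mk r) ⁻¹' {Quotient.mk r T}, (Γ ⧸ Z S.1) ≃* (Γ ⧸ Z T) :=
      fun S => Classical.choice (h1 S)
    let f : (Quotient.mk r) ⁻¹' {Quotient.mk r T} → (Γ →* (Γ ⧸ Z T)) := fun S =>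
      (e' S).toMonoidHom.comp (QuotientGroup.mk' (Z S.1))
    have hker : ∀ S, (f S).ker = Z S.1 := by
      intro S
      ext x
      rw [MonoidHom.mem_ker]
      show e' S (QuotientGroup.mk' (Z S.1) x) = 1 ↔ _
      rw [map_eq_one_iff (e' S) (e' S).injective]
      exact QuotientGroup.eq_one_iff x
    let g : (Quotient.mk r) ⁻¹' {Quotient.mk r T} → (Fin d → (Γ ⧸ Z T)) := fun S i => f S (s i)
    have hg : Function.Injective g := by
      intro S S' hSS
      have h2 : f S = f S' := by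
        apply MonoidHom.eq_of_eqOn_dense hs
        rintro _ ⟨i, rfl⟩
        exact congrFun hSS i
      apply Subtype.ext
      apply hinj
      rw [← hker, ← hker, h2]
    have hq : Countable (Γ ⧸ Z T) := (QuotientGroup.mk'_surjective (Z T)).countable
    exact hg.countable
  have h1 := Cardinal.mk_le_mk_mul_of_mk_preimage_le (Quotient.mk r) hfib
  have h2 : Cardinal.mk (Set ℕ) = Cardinal.continuum := by
    rw [Cardinal.mk_set, Cardinal.mk_nat, Cardinal.two_power_aleph0]
  have h3 : Cardinal.continuum ≤ Cardinal.mk (Quotient r) := by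
    by_contra hlt
    push Not at hlt
    rw [h2] at h1
    exact absurd h1 (not_le.2 (Cardinal.mul_lt_of_lt Cardinal.aleph0_le_continuum hlt
      Cardinal.aleph0_lt_continuum))
  have h4 : Cardinal.mk (ℕ → Bool) ≤ Cardinal.mk (Quotient r) := by
    have h5 : Cardinal.mk (ℕ → Bool) = Cardinal.continuum := by simp
    rw [h5]
    exact h3
  obtain ⟨ι⟩ := h4
  refine ⟨fun c => (ι c).out, fun c c' hcc => ι.injective ?_⟩
  rw [← Quotient.out_eq (ι c), ← Quotient.out_eq (ι c')]
  exact Quotient.sound (s := r) hcc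

lemma exists_seq {G : Type*} [Group G] [Infinite G] [Group.FG G] :
    ∃ k : ℕ → G, (∀ i, k i ≠ (k i)⁻¹) ∧ ∀ i j, i ≠ j → k i ≠ k j ∧ k i ≠ (k j)⁻¹ := by
  classical
  have hT : {k : G | k ≠ k⁻¹}.Infinite := by
    intro hT
    have hA : ∀ g : G, {k : G | k * g * k⁻¹ ≠ g⁻¹}.Finite := by
      intro g
      refine (hT.union (hT.image fun k => k * g⁻¹)).subset fun k hk => ?_
      by_contra hcon
      rw [Set.mem_union, not_or] at hcon
      apply hk
      have h1 : k = k⁻¹ := by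
        by_contra h
        exact hcon.1 h
      have h2 : k * g = (k * g)⁻¹ := by
        by_contra h
        exact hcon.2 ⟨k * g, h, by group⟩
      calc k * g * k⁻¹ = (k * g)⁻¹ * k⁻¹ := by rw [← h2]
        _ = g⁻¹ * (k⁻¹ * k⁻¹) := by group
        _ = g⁻¹ * (k * k⁻¹) := by nth_rewrite 1 [← h1]; rfl
        _ = g⁻¹ := by group
    have hcomm : ∀ g h : G, g * h = h * g := by
      intro g h
      obtain ⟨k, hk⟩ := ((hA g).union ((hA h).union (hA (g * h)))).infinite_compl.nonempty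
      simp only [Set.mem_compl_iff, Set.mem_union, Set.mem_setOf_eq, not_or, not_not] at hk
      obtain ⟨h1, h2, h3⟩ := hk
      have h4 : k * (g * h) * k⁻¹ = (k * g * k⁻¹) * (k * h * k⁻¹) := by group
      rw [h3, h1, h2, mul_inv_rev] at h4
      have h5 := congrArg (fun t => t⁻¹) h4
      simpa using h5
    have h2 : ∀ g : G, g ^ 2 = 1 := by
      intro g
      obtain ⟨k, hk⟩ := (hA g).infinite_compl.nonempty
      simp only [Set.mem_compl_iff, Set.mem_setOf_eq, not_not] at hk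
      rw [hcomm k g, mul_inv_cancel_right] at hk
      rw [sq]
      nth_rewrite 1 [hk]
      exact inv_mul_cancel g
    letI : CommGroup G := { (inferInstance : Group G) with mul_comm := hcomm }
    have h3 : Finite G := by
      apply CommGroup.finite_of_fg_isMulTorsion
      intro x
      rw [isOfFinOrder_iff_pow_eq_one]
      exact ⟨2, by norm_num, h2 x⟩
    exact not_finite_iff_infinite.2 ‹Infinite G› h3
  obtain ⟨k, h1, h2⟩ := exists_seq_of_forall_finset_exists (fun x : G => x ≠ x⁻¹)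
    (fun x y => y ≠ x ∧ y ≠ x⁻¹) (by
      intro s _
      obtain ⟨y, hy, hys⟩ := (hT.diff ((s.finite_toSet.union (s.finite_toSet.image
        fun x => x⁻¹)))).nonempty
      refine ⟨y, hy, fun x hx => ⟨?_, ?_⟩⟩
      · rintro rfl
        exact hys (Or.inl hx)
      · rintro rfl
        exact hys (Or.inr ⟨x, hx, rfl⟩))
  refine ⟨k, h1, fun i j hij => ?_⟩
  rcases lt_or_gt_of_ne hij with h | h
  · refine ⟨fun he => (h2 i j h).1 he.symm, fun he => (h2 i j h).2 ?_⟩
    rw [he, inv_inv]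
  · exact h2 j i h

open Tm

section

variable {R G : Type} [Ring R] [Group G] {δ : G →* R}

/-- the central subgroup given by a set of indices -/
def ZS (δ : G →* R) (k : ℕ → G) (S : Set ℕ) : Subgroup (G0 δ) :=
  Subgroup.closure {z | ∃ i ∈ S, z.1 = ze δ (δ (k i) - δ (k i)⁻¹)}

lemma ZS_center (k : ℕ → G) (S : Set ℕ) : ZS δ k S ≤ Subgroup.center (G0 δ) := by
  rw [ZS, Subgroup.closure_le]
  rintro z ⟨i, -, hz⟩
  show z ∈ Subgroup.center (G0 δ)
  rw [Subgroup.mem_center_iff]
  intro g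
  apply Subtype.ext
  show g.1 * z.1 = z.1 * g.1
  rw [hz]
  exact (ze_comm _ _).symm

instance ZS_normal (k : ℕ → G) (S : Set ℕ) : (ZS δ k S).Normal := by
  constructor
  intro z hz g
  have h1 := ZS_center k S hz
  rw [Subgroup.mem_center_iff] at h1
  rw [h1 g, mul_inv_cancel_right]
  exact hz

/-- the `i`-th functional vanishes -/
def LI (δ : G →* R) (l : R →+ R) : Subgroup (G0 δ) where
  carrier := {z | z.1.a = 0 ∧ z.1.b = 0 ∧ z.1.g = 1 ∧ l z.1.w = 0}
  mul_mem' := by
    rintro x y ⟨h1, h2, h3, h4⟩ ⟨k1, k2, k3, k4⟩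
    refine ⟨?_, ?_, ?_, ?_⟩
    · show (x.1 * y.1).a = 0
      rw [mul_a, h1, k1, zero_mul, zero_add]
    · show (x.1 * y.1).b = 0
      rw [mul_b, h2, k2, mul_zero, zero_add]
    · show (x.1 * y.1).g = 1
      rw [mul_g, h3, k3, one_mul]
    · show l (x.1 * y.1).w = 0
      rw [mul_w, h1, zero_mul, add_zero, map_add, h4, k4, add_zero]
  one_mem' := ⟨rfl, rfl, rfl, map_zero l⟩
  inv_mem' := by
    rintro x ⟨h1, h2, h3, h4⟩
    refine ⟨?_, ?_, ?_, ?_⟩
    · show (x.1⁻¹).a = 0
      rw [inv_a, h1, zero_mul, neg_zero]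
    · show (x.1⁻¹).b = 0
      rw [inv_b, h2, mul_zero, neg_zero]
    · show (x.1⁻¹).g = 1
      rw [inv_g, h3, inv_one]
    · show l (x.1⁻¹).w = 0
      rw [inv_w, h1, zero_mul, zero_mul, add_zero, map_neg, h4, neg_zero]

lemma ZS_inj (k : ℕ → G) (l : ℕ → R →+ R)
    (hl : ∀ i j, l i (δ (k j) - δ (k j)⁻¹) = 0 ↔ i ≠ j) : Function.Injective (ZS δ k) := by
  have key : ∀ S i, (⟨ze δ (δ (k i) - δ (k i)⁻¹), ze_mem (k i)⟩ : G0 δ) ∈ ZS δ k S ↔ i ∈ S := by
    intro S i
    constructor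
    · intro h
      by_contra hi
      have h1 : ZS δ k S ≤ LI δ (l i) := by
        rw [ZS, Subgroup.closure_le]
        rintro z ⟨j, hj, hz⟩
        show z.1.a = 0 ∧ z.1.b = 0 ∧ z.1.g = 1 ∧ l i z.1.w = 0
        rw [hz]
        refine ⟨rfl, rfl, rfl, (hl i j).2 ?_⟩
        rintro rfl
        exact hi hj
      exact (hl i i).1 (h1 h).2.2.2 rfl
    · intro h
      exact Subgroup.subset_closure ⟨i, h, rfl⟩
  intro S T hST
  ext i
  rw [← key S i, ← key T i, hST]

end

/-- a coefficient, as an additive map -/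
noncomputable def cfm (p : ℕ) {G : Type} [Group G] (g : G) :
    MonoidAlgebra (ZMod p) G →+ MonoidAlgebra (ZMod p) G where
  toFun r := MonoidAlgebra.single 1 (r.coeff g)
  map_zero' := by
    rw [MonoidAlgebra.coeff_zero, Finsupp.zero_apply, MonoidAlgebra.single_zero]
  map_add' r s := by
    rw [MonoidAlgebra.coeff_add, Finsupp.add_apply, MonoidAlgebra.single_add]

lemma cfm_eq (p : ℕ) {G : Type} [Group G] (g h : G) :
    cfm p g (MonoidAlgebra.of (ZMod p) G h) =
      MonoidAlgebra.single 1 (Finsupp.single h (1 : ZMod p) g) := rfl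

/-- **Theorem.** An infinite `d`-generator group `G` with `g ^ n = 1` gives continuum many
`(d+1)`-generator groups -/
theorem cont_main {q n d : ℕ} (hq : Adm q) (G : Type) [Group G] [Infinite G]
    (hd : GenBy d G) (hG : ∀ g : G, g ^ n = 1) :
    ∃ (Γ : (ℕ → Bool) → Type) (_ : ∀ c, Group (Γ c)), (∀ c, Ext q n (Γ c) ∧ GenBy (d + 1) (Γ c)) ∧
      ∀ c c', Nonempty (Γ c ≃* Γ c') → c = c' := by
  classical
  obtain ⟨p, hp, hpq, hpc⟩ := hq.exists_prime
  have hfg := hd.fg
  haveI : Fact p.Prime := ⟨hp⟩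
  obtain ⟨k, hk1, hk2⟩ := exists_seq (G := G)
  let R := MonoidAlgebra (ZMod p) G
  let δ : G →* R := MonoidAlgebra.of (ZMod p) G
  haveI : CharP R p := charP_of_injective_ringHom
    (f := (MonoidAlgebra.singleOneRingHom : ZMod p →+* R)) (by
      intro a b hab
      have h1 := congrArg (fun t : R => t.coeff 1) hab
      simpa [MonoidAlgebra.singleOneRingHom] using h1) p
  let l : ℕ → R →+ R := fun i => cfm p (k i)
  have hl : ∀ i j, l i (δ (k j) - δ (k j)⁻¹) = 0 ↔ i ≠ j := by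
    intro i j
    have h1 : l i (δ (k j) - δ (k j)⁻¹) = MonoidAlgebra.single 1 (if i = j then 1 else 0) := by
      rw [map_sub]
      show cfm p (k i) (MonoidAlgebra.of (ZMod p) G (k j)) -
        cfm p (k i) (MonoidAlgebra.of (ZMod p) G (k j)⁻¹) = _
      rw [cfm_eq, cfm_eq]
      by_cases hij : i = j
      · subst hij
        rw [Finsupp.single_eq_same, Finsupp.single_eq_of_ne (hk1 i), MonoidAlgebra.single_zero,
          sub_zero, if_pos rfl]
      · rw [Finsupp.single_eq_of_ne (hk2 i j hij).1, Finsupp.single_eq_of_ne (hk2 i j hij).2,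
          if_neg hij, sub_self, MonoidAlgebra.single_zero]
    rw [h1]
    by_cases hij : i = j
    · rw [if_pos hij]
      refine ⟨fun h => absurd ?_ (one_ne_zero (α := ZMod p)), fun h => absurd hij h⟩
      have h2 := congrArg (fun t : MonoidAlgebra (ZMod p) G => t.coeff 1) h
      simpa using h2
    · rw [if_neg hij, MonoidAlgebra.single_zero]
      exact ⟨fun _ => hij, fun _ => rfl⟩
  obtain ⟨S, hS⟩ := continuum (genBy_G0 (δ := δ) hd) (ZS δ k) (ZS_inj k l hl)
  refine ⟨fun c => G0 δ ⧸ ZS δ k (S c), fun c => inferInstance, fun c => ⟨?_, ?_⟩, hS⟩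
  · exact ((ext_Tm hpq hpc δ hG).of_injective (G0 δ).subtype
      (Subgroup.subtype_injective _)).of_surjective _ (QuotientGroup.mk'_surjective _)
  · exact (genBy_G0 (δ := δ) hd).of_surjective _ (QuotientGroup.mk'_surjective _)

end Pool.Agent.V7H56.BG
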