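import Pool.Agent.V7H56.BG.Cont

set_option autoImplicit false

/-!
# Finite free objects; countably many groups
-/

namespace Pool.Agent.V7H56.BG

open Subgroup

universe u

/-- up to isomorphism there are only finitely many groups with the property `P` -/
def FinMany (P : (G : Type) → [Group G] → Prop) : Prop :=
  ∃ (m : ℕ) (Γ : Fin m → Type) (_ : ∀ i, Group (Γ i)), ∀ (G : Type) [Group G], P G →
    ∃ i, Nonempty (G ≃* Γ i)

/-- up to isomorphism there are at most countably many groups with the property `P` -/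
def CountMany (P : (G : Type) → [Group G] → Prop) : Prop :=
  ∃ (Γ : ℕ → Type) (_ : ∀ i, Group (Γ i)), ∀ (G : Type) [Group G], P G →
    ∃ i, Nonempty (G ≃* Γ i)

/-- there is a family, indexed by `ι`, of pairwise non-isomorphic groups with the property `P` -/
def Family (ι : Type) (P : (G : Type) → [Group G] → Prop) : Prop :=
  ∃ (Γ : ι → Type) (_ : ∀ i, Group (Γ i)), (∀ i, P (Γ i)) ∧
    ∀ i j, Nonempty (Γ i ≃* Γ j) → i = j

lemma FinMany.not_family {P : (G : Type) → [Group G] → Prop} (h : FinMany P)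
    (h2 : Family ℕ P) : False := by
  obtain ⟨m, Γ, _, hΓ⟩ := h
  obtain ⟨Δ, _, hΔ, hne⟩ := h2
  choose f hf using fun k => hΓ (Δ k) (hΔ k)
  obtain ⟨k, l, hkl, he⟩ := Finite.exists_ne_map_eq_of_infinite f
  obtain ⟨e⟩ := hf k
  obtain ⟨e'⟩ := hf l
  rw [he] at e
  exact hkl (hne k l ⟨e.trans e'.symm⟩)

lemma CountMany.not_family {P : (G : Type) → [Group G] → Prop} (h : CountMany P)
    (h2 : Family (ℕ → Bool) P) : False := by
  obtain ⟨Γ, _, hΓ⟩ := h
  obtain ⟨Δ, _, hΔ, hne⟩ := h2
  choose f hf using fun k => hΓ (Δ k) (hΔ k)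
  have hinj : Function.Injective f := by
    intro k l he
    obtain ⟨e⟩ := hf k
    obtain ⟨e'⟩ := hf l
    rw [he] at e
    exact hne k l ⟨e.trans e'.symm⟩
  have h3 : Cardinal.mk (ℕ → Bool) = Cardinal.continuum := by simp
  have h2 : Cardinal.mk (ℕ → Bool) ≤ Cardinal.aleph0 :=
    Cardinal.mk_le_aleph0_iff.2 hinj.countable
  rw [h3] at h2
  exact absurd h2 (not_le.2 Cardinal.aleph0_lt_continuum)

lemma FinMany.of_quot {P : (G : Type) → [Group G] → Prop} (Q : Type) [Group Q] [Finite Q]
    (h : ∀ (G : Type) [Group G], P G → ∃ f : Q →* G, Function.Surjective f) : FinMany P := by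
  classical
  have hfin : Finite {N : Subgroup Q // N.Normal} := inferInstance
  obtain ⟨m, ⟨e⟩⟩ := Finite.exists_equiv_fin {N : Subgroup Q // N.Normal}
  haveI : ∀ i, ((e.symm i).1).Normal := fun i => (e.symm i).2
  refine ⟨m, fun i => Q ⧸ (e.symm i).1, fun i => inferInstance, fun G _ hP => ?_⟩
  obtain ⟨f, hf⟩ := h G hP
  refine ⟨e ⟨f.ker, inferInstance⟩, ⟨?_⟩⟩
  have h1 : (e.symm (e ⟨f.ker, inferInstance⟩)).1 = f.ker := by rw [Equiv.symm_apply_apply]
  exact ((QuotientGroup.quotientMulEquivOfEq h1).trans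
    (QuotientGroup.quotientKerEquivOfSurjective f hf)).symm

/-- a type with `m` elements, without structure -/
def FinC (m : ℕ) : Type := Fin m

lemma countMany_finite {P : (G : Type) → [Group G] → Prop}
    (h : ∀ (G : Type) [Group G], P G → Finite G) : CountMany P := by
  have h1 : ∀ m : ℕ, Countable (Group (FinC m)) := by
    intro m
    have h2 : Function.Injective (fun s : Group (FinC m) => s.mul) := by
      intro s t hst
      apply Group.ext
      exact hst
    have h3 : Finite (FinC m) := inferInstanceAs (Finite (Fin m))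
    exact h2.countable
  have h2 : Countable (Σ m : ℕ, Group (FinC m)) := inferInstance
  have h3 : Nonempty (Σ m : ℕ, Group (FinC m)) :=
    ⟨⟨1, (show FinC 1 ≃ Multiplicative (Fin 1) from Equiv.ofUnique (Fin 1) _).group⟩⟩
  obtain ⟨e, he⟩ := exists_surjective_nat (Σ m : ℕ, Group (FinC m))
  refine ⟨fun k => FinC (e k).1, fun k => (e k).2, fun G _ hP => ?_⟩
  have hG := h G hP
  obtain ⟨m, ⟨f⟩⟩ := Finite.exists_equiv_fin G
  let f' : FinC m ≃ G := f.symm
  let s : Group (FinC m) := f'.group
  obtain ⟨k, hk⟩ := he ⟨m, s⟩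
  have key : ∀ t : (Σ m : ℕ, Group (FinC m)), t = ⟨m, s⟩ →
      (letI := t.2; Nonempty (G ≃* FinC t.1)) := by
    rintro _ rfl
    exact ⟨(f'.mulEquiv).symm⟩
  exact ⟨k, key _ hk⟩

/-- the free Burnside group -/
abbrev B (m n : ℕ) : Type :=
  FreeGroup (Fin m) ⧸ Subgroup.normalClosure (Set.range fun w : FreeGroup (Fin m) => w ^ n)

lemma B_pow (m n : ℕ) (x : B m n) : x ^ n = 1 := by
  obtain ⟨w, rfl⟩ := QuotientGroup.mk_surjective x
  rw [← QuotientGroup.mk_pow, QuotientGroup.eq_one_iff]
  exact Subgroup.subset_normalClosure ⟨w, rfl⟩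

lemma genBy_free (d : ℕ) : GenBy d (FreeGroup (Fin d)) :=
  ⟨FreeGroup.of, FreeGroup.closure_range_of (Fin d)⟩

lemma B_gen (m n : ℕ) : GenBy m (B m n) :=
  (genBy_free m).of_surjective _ (QuotientGroup.mk'_surjective _)

lemma B_univ {m n : ℕ} {G : Type*} [Group G] (hG : ∀ x : G, x ^ n = 1) (hd : GenBy m G) :
    ∃ f : B m n →* G, Function.Surjective f := by
  obtain ⟨s, hs⟩ := hd
  refine ⟨QuotientGroup.lift _ (FreeGroup.lift s) ?_, ?_⟩
  · intro x hx
    have h1 : Subgroup.normalClosure (Set.range fun w : FreeGroup (Fin m) => w ^ n) ≤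
        (FreeGroup.lift s).ker := by
      apply Subgroup.normalClosure_le_normal
      rintro _ ⟨w, rfl⟩
      show FreeGroup.lift s (w ^ n) = 1
      rw [map_pow]
      exact hG _
    exact h1 hx
  · apply QuotientGroup.lift_surjective_of_surjective
    rw [FreeGroup.lift_surjective_iff_closure_range_eq_top]
    exact hs

/-- the free group of rank `d` of the variety given by `W` -/
abbrev FW (W : Set (FreeGroup ℕ)) (d : ℕ) : Type :=
  FreeGroup (Fin d) ⧸ Subgroup.normalClosure
    {v | ∃ w ∈ W, ∃ f : ℕ → FreeGroup (Fin d), FreeGroup.lift f w = v}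

lemma FW_sat (W : Set (FreeGroup ℕ)) (d : ℕ) : Sat W (FW W d) := by
  intro w hw f
  choose g hg using fun n => QuotientGroup.mk_surjective (f n)
  have h1 : FreeGroup.lift f w = (QuotientGroup.mk (FreeGroup.lift g w) : FW W d) := by
    have : FreeGroup.lift f = (QuotientGroup.mk' (Subgroup.normalClosure
        {v | ∃ w ∈ W, ∃ f : ℕ → FreeGroup (Fin d), FreeGroup.lift f w = v})).comp
        (FreeGroup.lift g) := by
      ext n; simp [hg]
    rw [this]; rfl
  rw [h1, QuotientGroup.eq_one_iff]
  exact Subgroup.subset_normalClosure ⟨w, hw, g, rfl⟩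

lemma FW_gen (W : Set (FreeGroup ℕ)) (d : ℕ) : GenBy d (FW W d) :=
  (genBy_free d).of_surjective _ (QuotientGroup.mk'_surjective _)

lemma FW_univ {W : Set (FreeGroup ℕ)} {d : ℕ} {G : Type*} [Group G] (hG : Sat W G)
    (hd : GenBy d G) : ∃ f : FW W d →* G, Function.Surjective f := by
  obtain ⟨s, hs⟩ := hd
  refine ⟨QuotientGroup.lift _ (FreeGroup.lift s) ?_, ?_⟩
  · intro x hx
    have h1 : Subgroup.normalClosure
        {v | ∃ w ∈ W, ∃ f : ℕ → FreeGroup (Fin d), FreeGroup.lift f w = v} ≤
        (FreeGroup.lift s).ker := by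
      apply Subgroup.normalClosure_le_normal
      rintro _ ⟨w, hw, f, rfl⟩
      show FreeGroup.lift s (FreeGroup.lift f w) = 1
      have h2 : (FreeGroup.lift s).comp (FreeGroup.lift f) =
          FreeGroup.lift fun n => FreeGroup.lift s (f n) := by
        ext n; simp
      have h3 : FreeGroup.lift s (FreeGroup.lift f w) =
          FreeGroup.lift (fun n => FreeGroup.lift s (f n)) w := by
        rw [← h2]; rfl
      rw [h3]
      exact hG w hw _
    exact h1 hx
  · apply QuotientGroup.lift_surjective_of_surjective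
    rw [FreeGroup.lift_surjective_iff_closure_range_eq_top]
    exact hs

/-- a finitely generated group of class at most two and exponent `p` is finite -/
lemma finite_class_two {N : Type*} [Group N] [Group.FG N] {p : ℕ} (hp : 0 < p)
    (h1 : ∀ x : N, x ^ p = 1)
    (h2 : ∀ x y z : N, (x * y * x⁻¹ * y⁻¹) * z = z * (x * y * x⁻¹ * y⁻¹)) : Finite N := by
  have key : ∀ (A : Type _) [Group A] [Group.FG A], (∀ x y : A, x * y = y * x) →
      (∀ x : A, x ^ p = 1) → Finite A := by
    intro A _ _ hc hx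
    letI : CommGroup A := { (inferInstance : Group A) with mul_comm := hc }
    apply CommGroup.finite_of_fg_isMulTorsion
    intro x
    rw [isOfFinOrder_iff_pow_eq_one]
    exact ⟨p, hp, hx x⟩
  have h3 : Finite (N ⧸ Subgroup.center N) := by
    apply key
    · intro x y
      obtain ⟨x, rfl⟩ := QuotientGroup.mk_surjective x
      obtain ⟨y, rfl⟩ := QuotientGroup.mk_surjective y
      rw [← QuotientGroup.mk_mul, ← QuotientGroup.mk_mul, ← mul_inv_eq_one,
        ← QuotientGroup.mk_inv, ← QuotientGroup.mk_mul, QuotientGroup.eq_one_iff]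
      rw [Subgroup.mem_center_iff]
      intro z
      have := h2 x y z
      simp only [mul_inv_rev, ← mul_assoc] at this ⊢
      exact this.symm
    · intro x
      obtain ⟨x, rfl⟩ := QuotientGroup.mk_surjective x
      rw [← QuotientGroup.mk_pow, h1, QuotientGroup.mk_one]
  have h4 : (Subgroup.center N).FiniteIndex := finiteIndex_of_finite_quotient
  have h5 : Finite (Subgroup.center N) := by
    apply key
    · intro x y
      exact Subtype.ext ((Subgroup.mem_center_iff.1 y.2 x.1))
    · intro x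
      exact Subtype.ext (h1 x.1)
  exact Finite.of_subgroup_quotient (Subgroup.center N)

lemma ext_finite {p n d : ℕ} (hp : 0 < p) (hB : Finite (B d n)) {Γ : Type*} [Group Γ]
    (hd : GenBy d Γ) (h : Ext p n Γ) : Finite Γ := by
  obtain ⟨N, hN, h1, h2, h3⟩ := h
  have hq : Finite (Γ ⧸ N) := by
    obtain ⟨f, hf⟩ := B_univ (m := d) (n := n) (G := Γ ⧸ N) (fun x => by
      obtain ⟨x, rfl⟩ := QuotientGroup.mk_surjective x
      rw [← QuotientGroup.mk_pow, QuotientGroup.eq_one_iff]
      exact h3 x) (hd.of_surjective _ (QuotientGroup.mk'_surjective N))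
    exact Finite.of_surjective f hf
  have hfg := hd.fg
  have h4 : N.FiniteIndex := finiteIndex_of_finite_quotient
  have h5 : Finite N := finite_class_two hp (fun x => Subtype.ext (h1 x.1 x.2))
    (fun x y z => Subtype.ext (h2 x.1 x.2 y.1 y.2 z.1 z.2))
  exact Finite.of_subgroup_quotient N

lemma not_noMin_finite {G : Type*} [Group G] [Finite G] : ¬ NoMin G := by
  rintro ⟨N, -, h⟩
  exact not_injective_infinite_finite N h.injective

end Pool.Agent.V7H56.BG
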