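import Pool.Agent.V7H56.BG.Main

set_option autoImplicit false

/-!
# Groups of unitriangular type over a ring with a group of units
-/

namespace Pool.Agent.V7H56.BG

open Subgroup

/-- the matrices with rows `(1, a, w)`, `(0, δ g, b)`, `(0, 0, 1)` -/
@[ext] structure Tm {R G : Type*} [Ring R] [Group G] (δ : G →* R) where
  /-- the entry in the first row, second column -/
  a : R
  /-- the entry in the second row, third column -/
  b : R
  /-- the entry in the first row, third column -/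
  w : R
  /-- the diagonal entry -/
  g : G

namespace Tm

variable {R G : Type*} [Ring R] [Group G] {δ : G →* R}

instance : Mul (Tm δ) :=
  ⟨fun x y => ⟨x.a * δ y.g + y.a, x.b + δ x.g * y.b, x.w + y.w + x.a * y.b, x.g * y.g⟩⟩

instance : One (Tm δ) := ⟨⟨0, 0, 0, 1⟩⟩

instance : Inv (Tm δ) :=
  ⟨fun x => ⟨-(x.a * δ x.g⁻¹), -(δ x.g⁻¹ * x.b), -x.w + x.a * δ x.g⁻¹ * x.b, x.g⁻¹⟩⟩

lemma mul_a (x y : Tm δ) : (x * y).a = x.a * δ y.g + y.a := rfl
lemma mul_b (x y : Tm δ) : (x * y).b = x.b + δ x.g * y.b := rfl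
lemma mul_w (x y : Tm δ) : (x * y).w = x.w + y.w + x.a * y.b := rfl
lemma mul_g (x y : Tm δ) : (x * y).g = x.g * y.g := rfl
lemma one_a : (1 : Tm δ).a = 0 := rfl
lemma one_b : (1 : Tm δ).b = 0 := rfl
lemma one_w : (1 : Tm δ).w = 0 := rfl
lemma one_g : (1 : Tm δ).g = 1 := rfl
lemma inv_a (x : Tm δ) : (x⁻¹).a = -(x.a * δ x.g⁻¹) := rfl
lemma inv_b (x : Tm δ) : (x⁻¹).b = -(δ x.g⁻¹ * x.b) := rfl
lemma inv_w (x : Tm δ) : (x⁻¹).w = -x.w + x.a * δ x.g⁻¹ * x.b := rfl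
lemma inv_g (x : Tm δ) : (x⁻¹).g = x.g⁻¹ := rfl

instance : Group (Tm δ) := Group.ofLeftAxioms
  (fun x y z => by
    ext
    · simp only [mul_a, mul_g, map_mul, add_mul, mul_assoc, add_assoc]
    · simp only [mul_b, mul_g, map_mul, mul_add, mul_assoc, add_assoc]
    · simp only [mul_w, mul_a, mul_b, add_mul, mul_add, mul_assoc]
      abel
    · simp only [mul_g, mul_assoc])
  (fun x => by
    ext
    · simp only [mul_a, one_a, zero_mul, zero_add]
    · simp only [mul_b, one_b, one_g, map_one, one_mul, zero_add]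
    · simp only [mul_w, one_w, one_a, zero_mul, zero_add, add_zero]
    · simp only [mul_g, one_g, one_mul])
  (fun x => by
    have h : δ x.g⁻¹ * δ x.g = 1 := by rw [← map_mul, inv_mul_cancel, map_one]
    ext
    · simp only [mul_a, inv_a, one_a, neg_mul, mul_assoc, h, mul_one, neg_add_cancel]
    · simp only [mul_b, inv_b, one_b, inv_g, neg_add_cancel]
    · simp only [mul_w, inv_w, one_w, inv_a]
      noncomm_ring
    · simp only [mul_g, inv_g, one_g, inv_mul_cancel])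

/-- the projection to `G` -/
def pr : Tm δ →* G where
  toFun x := x.g
  map_one' := rfl
  map_mul' _ _ := rfl

lemma pr_apply (x : Tm δ) : pr x = x.g := rfl

/-- the embedding of `G` -/
def em (δ : G →* R) : G →* Tm δ where
  toFun g := ⟨0, 0, 0, g⟩
  map_one' := rfl
  map_mul' g h := by
    ext
    · simp only [mul_a, zero_mul, zero_add]
    · simp only [mul_b, mul_zero, zero_add]
    · simp only [mul_w, zero_mul, zero_add]
    · rfl

lemma pow_ker (x : Tm δ) (hx : x.g = 1) (m : ℕ) :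
    (x ^ m).a = m * x.a ∧ (x ^ m).b = m * x.b ∧ (x ^ m).w = m * x.w + (m.choose 2 : ℕ) * (x.a * x.b) ∧
      (x ^ m).g = 1 := by
  induction m with
  | zero => simp [one_a, one_b, one_w, one_g]
  | succ m ih =>
    obtain ⟨h1, h2, h3, h4⟩ := ih
    rw [pow_succ]
    refine ⟨?_, ?_, ?_, ?_⟩
    · rw [mul_a, h1, hx, map_one, mul_one]
      push_cast
      noncomm_ring
    · rw [mul_b, h2, h4, map_one, one_mul]
      push_cast
      noncomm_ring
    · rw [mul_w, h3, h1, Nat.choose_succ_succ' m 1, Nat.choose_one_right]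
      push_cast
      noncomm_ring
    · rw [mul_g, h4, hx, mul_one]

lemma pow_q {p q : ℕ} (h1 : p ∣ q) (h2 : p ∣ q.choose 2) [CharP R p] (x : Tm δ) (hx : x.g = 1) :
    x ^ q = 1 := by
  obtain ⟨k1, k2, k3, k4⟩ := pow_ker x hx q
  have hp0 : (q : R) = 0 := (CharP.cast_eq_zero_iff R p q).2 h1
  have hc : ((q.choose 2 : ℕ) : R) = 0 := (CharP.cast_eq_zero_iff R p _).2 h2
  ext
  · rw [k1, hp0, zero_mul, one_a]
  · rw [k2, hp0, zero_mul, one_b]
  · rw [k3, hp0, hc, zero_mul, zero_mul, zero_add, one_w]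
  · rw [k4, one_g]

/-- the central elements -/
def ze (δ : G →* R) (w : R) : Tm δ := ⟨0, 0, w, 1⟩

lemma ze_comm (w : R) (x : Tm δ) : ze δ w * x = x * ze δ w := by
  ext
  · simp only [mul_a, ze, zero_mul, zero_add, map_one, mul_one, add_zero]
  · simp only [mul_b, ze, map_one, one_mul, zero_add, mul_zero, add_zero]
  · simp only [mul_w, ze, zero_mul, add_zero, mul_zero]
    abel
  · simp only [mul_g, ze, one_mul, mul_one]

lemma comm_ker (x y : Tm δ) (hx : x.g = 1) (hy : y.g = 1) :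
    x * y * x⁻¹ * y⁻¹ = ze δ (x.a * y.b - y.a * x.b) := by
  have h : x * y = ze δ (x.a * y.b - y.a * x.b) * (y * x) := by
    ext
    · simp only [mul_a, ze, hx, hy, map_one, mul_one, zero_mul, zero_add]
      abel
    · simp only [mul_b, ze, hx, hy, map_one, one_mul, zero_add]
      abel
    · simp only [mul_w, ze, zero_mul]
      abel
    · simp only [mul_g, ze, hx, hy, mul_one]
  rw [h]
  group

/-- the element with `a = b = 1` -/
def x0 (δ : G →* R) : Tm δ := ⟨1, 1, 0, 1⟩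

/-- the subgroup generated by `G` and `x0` -/
def G0 (δ : G →* R) : Subgroup (Tm δ) := Subgroup.closure (Set.range (em δ) ∪ {x0 δ})

lemma em_mem (g : G) : em δ g ∈ G0 δ := Subgroup.subset_closure (Or.inl ⟨g, rfl⟩)

lemma x0_mem : x0 δ ∈ G0 δ := Subgroup.subset_closure (Or.inr rfl)

lemma conj_x0 (k : G) : em δ k * x0 δ * (em δ k)⁻¹ = ⟨δ k⁻¹, δ k, 0, 1⟩ := by
  rw [← map_inv]
  ext
  · simp only [mul_a, mul_g, em, x0, MonoidHom.coe_mk, OneHom.coe_mk, map_one, one_mul, mul_one,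
      zero_add, add_zero, zero_mul]
  · simp only [mul_b, mul_g, em, x0, MonoidHom.coe_mk, OneHom.coe_mk, mul_one, zero_add, mul_zero,
      add_zero]
  · simp only [mul_w, mul_a, em, x0, MonoidHom.coe_mk, OneHom.coe_mk, zero_mul, mul_zero, add_zero]
  · simp only [mul_g, em, x0, MonoidHom.coe_mk, OneHom.coe_mk, mul_one, mul_inv_cancel]

lemma ze_mem (k : G) : ze δ (δ k - δ k⁻¹) ∈ G0 δ := by
  have h1 : em δ k * x0 δ * (em δ k)⁻¹ ∈ G0 δ :=
    mul_mem (mul_mem (em_mem k) x0_mem) (inv_mem (em_mem k))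
  rw [conj_x0] at h1
  have h2 := comm_ker (x0 δ) (⟨δ k⁻¹, δ k, 0, 1⟩ : Tm δ) rfl rfl
  have h3 : x0 δ * (⟨δ k⁻¹, δ k, 0, 1⟩ : Tm δ) * (x0 δ)⁻¹ * (⟨δ k⁻¹, δ k, 0, 1⟩ : Tm δ)⁻¹ ∈ G0 δ :=
    mul_mem (mul_mem (mul_mem x0_mem h1) (inv_mem x0_mem)) (inv_mem h1)
  rw [h2] at h3
  simpa only [x0, one_mul, mul_one] using h3

lemma genBy_G0 {d : ℕ} (h : GenBy d G) : GenBy (d + 1) (G0 δ) := by
  obtain ⟨s, hs⟩ := h
  refine genBy_closure (Fin.cons (x0 δ) fun i => em δ (s i)) (le_antisymm ?_ ?_)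
  · rw [Subgroup.closure_le]
    rintro _ ⟨i, rfl⟩
    refine Fin.cases ?_ (fun i => ?_) i
    · rw [Fin.cons_zero]
      exact x0_mem
    · rw [Fin.cons_succ]
      exact em_mem _
  · rw [G0, Subgroup.closure_le]
    rintro _ (⟨g, rfl⟩ | h)
    · have h1 : g ∈ Subgroup.closure (Set.range s) := by rw [hs]; trivial
      have h2 : em δ g ∈ (Subgroup.closure (Set.range s)).map (em δ) := ⟨g, h1, rfl⟩
      rw [MonoidHom.map_closure, ← Set.range_comp] at h2
      refine Subgroup.closure_mono ?_ h2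
      rintro _ ⟨i, rfl⟩
      exact ⟨i.succ, by simp⟩
    · rw [Set.mem_singleton_iff] at h
      subst h
      exact Subgroup.subset_closure ⟨0, by simp⟩

end Tm

/-- there is a normal subgroup `N` with `x ^ p = 1` and `[[x, y], z] = 1` in `N`, and `g ^ n ∈ N` for
all `g` -/
def Ext (p n : ℕ) (Γ : Type*) [Group Γ] : Prop :=
  ∃ N : Subgroup Γ, N.Normal ∧ (∀ x ∈ N, x ^ p = 1) ∧
    (∀ x ∈ N, ∀ y ∈ N, ∀ z ∈ N, (x * y * x⁻¹ * y⁻¹) * z = z * (x * y * x⁻¹ * y⁻¹)) ∧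
    ∀ g : Γ, g ^ n ∈ N

lemma Ext.of_injective {p n : ℕ} {Γ Δ : Type*} [Group Γ] [Group Δ] (h : Ext p n Γ) (φ : Δ →* Γ)
    (hφ : Function.Injective φ) : Ext p n Δ := by
  obtain ⟨N, h1, h2, h3, h4⟩ := h
  refine ⟨N.comap φ, h1.comap φ, fun x hx => ?_, fun x hx y hy z hz => ?_, fun g => ?_⟩
  · apply hφ
    rw [map_pow, map_one]
    exact h2 _ hx
  · apply hφ
    simp only [map_mul, map_inv]
    exact h3 _ hx _ hy _ hz
  · show φ (g ^ n) ∈ N
    rw [map_pow]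
    exact h4 _

lemma Ext.of_surjective {p n : ℕ} {Γ Δ : Type*} [Group Γ] [Group Δ] (h : Ext p n Γ) (φ : Γ →* Δ)
    (hφ : Function.Surjective φ) : Ext p n Δ := by
  obtain ⟨N, h1, h2, h3, h4⟩ := h
  refine ⟨N.map φ, h1.map φ hφ, ?_, ?_, fun g => ?_⟩
  · rintro _ ⟨x, hx, rfl⟩
    rw [← map_pow, h2 x hx, map_one]
  · rintro _ ⟨x, hx, rfl⟩ _ ⟨y, hy, rfl⟩ _ ⟨z, hz, rfl⟩
    simp only [← map_mul, ← map_inv]
    rw [h3 x hx y hy z hz]
  · obtain ⟨g, rfl⟩ := hφ g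
    exact ⟨g ^ n, h4 g, map_pow φ g n⟩

lemma Ext.pow {p n : ℕ} {Γ : Type*} [Group Γ] (h : Ext p n Γ) (g : Γ) : g ^ (p * n) = 1 := by
  obtain ⟨N, h1, h2, h3, h4⟩ := h
  rw [mul_comm, pow_mul]
  exact h2 _ (h4 g)

open Tm in
lemma ext_Tm {p q n : ℕ} (h1 : p ∣ q) (h2 : p ∣ q.choose 2) {R G : Type*} [Ring R] [Group G]
    [CharP R p] (δ : G →* R) (hG : ∀ g : G, g ^ n = 1) : Ext q n (Tm δ) := by
  refine ⟨(pr (δ := δ)).ker, inferInstance, fun x hx => pow_q h1 h2 x hx, ?_, fun g => ?_⟩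
  · intro x hx y hy z _
    rw [comm_ker x y hx hy]
    exact ze_comm _ _
  · rw [MonoidHom.mem_ker, map_pow]
    exact hG _

/-- `4` and the odd primes -/
def Adm (q : ℕ) : Prop := q = 4 ∨ (q.Prime ∧ q ≠ 2)

lemma Adm.exists_prime {q : ℕ} (h : Adm q) : ∃ p : ℕ, p.Prime ∧ p ∣ q ∧ p ∣ q.choose 2 := by
  rcases h with rfl | ⟨h, h2⟩
  · exact ⟨2, Nat.prime_two, by norm_num, by decide⟩
  · exact ⟨q, h, dvd_rfl, h.dvd_choose_self (by norm_num) (lt_of_le_of_ne h.two_le (Ne.symm h2))⟩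

lemma Adm.pos {q : ℕ} (h : Adm q) : 0 < q := by
  rcases h with rfl | ⟨h, -⟩
  · norm_num
  · exact h.pos

end Pool.Agent.V7H56.BG
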