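import Pool.Agent.V7H56.BG.Res

set_option autoImplicit false

/-!
# Infinite `d`-generator groups in a variety give infinitely many `(d+1)`-generator groups
-/

namespace Pool.Agent.V7H56.BG

open Subgroup

/-- `G` is generated by `d` elements -/
def GenBy (d : ℕ) (G : Type*) [Group G] : Prop :=
  ∃ s : Fin d → G, Subgroup.closure (Set.range s) = ⊤

/-- the laws `w = 1`, `w ∈ W`, hold in `G` -/
def Sat (W : Set (FreeGroup ℕ)) (G : Type*) [Group G] : Prop :=
  ∀ w ∈ W, ∀ f : ℕ → G, FreeGroup.lift f w = 1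

lemma Sat.of_injective {W : Set (FreeGroup ℕ)} {G K : Type*} [Group G] [Group K]
    (h : Sat W G) (φ : K →* G) (hφ : Function.Injective φ) : Sat W K := by
  intro w hw f
  apply hφ
  rw [map_one]
  have h1 : φ (FreeGroup.lift f w) = FreeGroup.lift (φ ∘ f) w := by
    have : φ.comp (FreeGroup.lift f) = FreeGroup.lift (φ ∘ f) := by
      ext n; simp
    rw [← this]; rfl
  rw [h1]
  exact h w hw _

lemma Sat.of_surjective {W : Set (FreeGroup ℕ)} {G K : Type*} [Group G] [Group K]
    (h : Sat W G) (φ : G →* K) (hφ : Function.Surjective φ) : Sat W K := by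
  intro w hw f
  choose g hg using fun n => hφ (f n)
  have h1 : FreeGroup.lift f w = φ (FreeGroup.lift g w) := by
    have : FreeGroup.lift f = φ.comp (FreeGroup.lift g) := by
      ext n; simp [hg]
    rw [this]; rfl
  rw [h1, h w hw g, map_one]

lemma Sat.pi {W : Set (FreeGroup ℕ)} {G : Type*} [Group G] (h : Sat W G) (ι : Type*) :
    Sat W (ι → G) := by
  intro w hw f
  funext i
  have h1 : (FreeGroup.lift f w) i = FreeGroup.lift (fun n => f n i) w := by
    have : (Pi.evalMonoidHom (fun _ : ι => G) i).comp (FreeGroup.lift f) =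
        FreeGroup.lift (fun n => f n i) := by
      ext n; simp
    rw [← this]; rfl
  rw [h1]
  exact h w hw _

lemma GenBy.of_surjective {d : ℕ} {G K : Type*} [Group G] [Group K] (h : GenBy d G)
    (φ : G →* K) (hφ : Function.Surjective φ) : GenBy d K := by
  obtain ⟨s, hs⟩ := h
  refine ⟨φ ∘ s, ?_⟩
  rw [Set.range_comp, ← MonoidHom.map_closure, hs, Subgroup.map_top_of_surjective φ hφ]

lemma GenBy.succ {d : ℕ} {G : Type*} [Group G] (h : GenBy d G) : GenBy (d + 1) G := by
  obtain ⟨s, hs⟩ := h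
  refine ⟨Fin.cons 1 s, ?_⟩
  rw [eq_top_iff, ← hs, Subgroup.closure_le]
  rintro _ ⟨i, rfl⟩
  exact Subgroup.subset_closure ⟨i.succ, by simp⟩

lemma GenBy.fg {d : ℕ} {G : Type*} [Group G] (h : GenBy d G) : Group.FG G := by
  obtain ⟨s, hs⟩ := h
  exact Group.fg_iff.2 ⟨Set.range s, hs, Set.finite_range s⟩

/-- a subgroup generated by the values of `t` -/
lemma genBy_closure {d : ℕ} {P : Type*} [Group P] {K : Subgroup P} (t : Fin d → P)
    (h : Subgroup.closure (Set.range t) = K) : GenBy d K := by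
  have ht : ∀ i, t i ∈ K := fun i => by
    rw [← h]
    exact Subgroup.subset_closure ⟨i, rfl⟩
  refine ⟨fun i => ⟨t i, ht i⟩, ?_⟩
  apply Subgroup.map_injective K.subtype_injective
  rw [MonoidHom.map_closure, ← Set.range_comp, ← MonoidHom.range_eq_map, Subgroup.range_subtype]
  exact h

lemma genBy_D {d : ℕ} {H ι : Type*} [Group H] (h : GenBy d H) (y : ι → H) :
    GenBy (d + 1) (D y) := by
  obtain ⟨s, hs⟩ := h
  refine genBy_closure (Fin.cons y fun i => cst ι H (s i)) (le_antisymm ?_ ?_)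
  · rw [Subgroup.closure_le]
    rintro _ ⟨i, rfl⟩
    refine Fin.cases ?_ (fun i => ?_) i
    · rw [Fin.cons_zero]
      exact self_mem y
    · rw [Fin.cons_succ]
      exact cst_mem y _
  · rw [D, Subgroup.closure_le]
    rintro _ (⟨g, rfl⟩ | h)
    · have h1 : g ∈ Subgroup.closure (Set.range s) := by rw [hs]; trivial
      have h2 : cst ι H g ∈ (Subgroup.closure (Set.range s)).map (cst ι H) := ⟨g, h1, rfl⟩
      rw [MonoidHom.map_closure, ← Set.range_comp] at h2
      refine Subgroup.closure_mono ?_ h2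
      rintro _ ⟨i, rfl⟩
      exact ⟨i.succ, by simp⟩
    · rw [Set.mem_singleton_iff] at h
      subst h
      exact Subgroup.subset_closure ⟨0, by simp⟩

/-- strictly descending sequences of normal subgroups -/
def NoMin (G : Type*) [Group G] : Prop :=
  ∃ N : ℕ → Subgroup G, (∀ k, (N k).Normal) ∧ StrictAnti N

lemma NoMin.of_surjective {G K : Type*} [Group G] [Group K] (h : NoMin K) (φ : G →* K)
    (hφ : Function.Surjective φ) : NoMin G := by
  obtain ⟨N, h1, h2⟩ := h
  refine ⟨fun k => (N k).comap φ, fun k => (h1 k).comap φ, fun i j hij => ?_⟩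
  have h3 := h2 hij
  refine lt_of_le_of_ne (Subgroup.comap_mono h3.le) fun he => h3.ne ?_
  exact Subgroup.comap_injective hφ he

lemma noMin_D {H : Type*} [Group H] {C : Subgroup H} (hC : Mono C) {y : ℕ → H}
    (hy : ∀ i, y i ∈ C) (hinj : Function.Injective y) : NoMin (D y) := by
  let N : ℕ → Subgroup (D y) := fun k =>
    { carrier := {z | ∀ i < k, z.1 i = 1}
      mul_mem' := fun {a b} ha hb i hi => by
        show a.1 i * b.1 i = 1
        rw [ha i hi, hb i hi, mul_one]
      one_mem' := fun i _ => rfl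
      inv_mem' := fun {a} ha i hi => by
        show (a.1 i)⁻¹ = 1
        rw [ha i hi, inv_one] }
  have hN : ∀ k z, z ∈ N k ↔ ∀ i < k, z.1 i = 1 := fun k z => Iff.rfl
  refine ⟨N, fun k => ⟨fun z hz g => ?_⟩, strictAnti_nat_of_succ_lt fun k => ?_⟩
  · intro i hi
    show g.1 i * z.1 i * (g.1 i)⁻¹ = 1
    rw [hz i hi, mul_one, mul_inv_cancel]
  · refine lt_of_le_of_ne (fun z hz i hi => hz i (by omega)) fun he => ?_
    obtain ⟨z, hz, -, hz1, hz2⟩ := sep hC hy hinj k (Finset.range k) (by simp)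
    have h1 : (⟨z, hz⟩ : D y) ∈ N k := fun i hi => hz1 i (Finset.mem_range.2 hi)
    rw [← he] at h1
    exact hz2 (h1 k (by omega))

/-- a descending sequence of normal subgroups of finite index -/
lemma desc {G : Type*} [Group G]
    (h : ¬ ∃ R : Subgroup G, R.Normal ∧ R.FiniteIndex ∧ ∀ K : Subgroup G, K.FiniteIndex → R ≤ K) :
    ∃ N : ℕ → Subgroup G, (∀ k, (N k).Normal) ∧ (∀ k, (N k).FiniteIndex) ∧ StrictAnti N := by
  have h1 : ∀ N : {N : Subgroup G // N.Normal ∧ N.FiniteIndex},
      ∃ N' : {N : Subgroup G // N.Normal ∧ N.FiniteIndex}, N'.1 < N.1 := by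
    rintro ⟨N, hN1, hN2⟩
    obtain ⟨K, hK, hle⟩ : ∃ K : Subgroup G, K.FiniteIndex ∧ ¬ N ≤ K := by
      by_contra hcon
      push Not at hcon
      exact h ⟨N, hN1, hN2, hcon⟩
    have := hN1
    have := hN2
    have := hK
    refine ⟨⟨N ⊓ K.normalCore, inferInstance, inferInstance⟩, ?_⟩
    refine lt_of_le_of_ne inf_le_left fun he => hle ?_
    have h2 : N ≤ K.normalCore := inf_eq_left.1 he
    exact h2.trans K.normalCore_le
  choose f hf using h1
  let N : ℕ → {N : Subgroup G // N.Normal ∧ N.FiniteIndex} := fun k =>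
    Nat.rec ⟨⊤, inferInstance, inferInstance⟩ (fun _ M => f M) k
  exact ⟨fun k => (N k).1, fun k => (N k).2.1, fun k => (N k).2.2,
    strictAnti_nat_of_succ_lt fun k => hf (N k)⟩

/-- the general theorem -/
theorem main {W : Set (FreeGroup ℕ)} {d : ℕ} (G : Type) [Group G] (hW : Sat W G)
    (hd : GenBy d G) (hG : Infinite G) :
    (∃ (Γ : ℕ → Type) (_ : ∀ k, Group (Γ k)), (∀ k, Sat W (Γ k) ∧ GenBy (d + 1) (Γ k)) ∧
      ∀ k l, Nonempty (Γ k ≃* Γ l) → k = l) ∧
    ∃ (Γ : Type) (_ : Group Γ), Sat W Γ ∧ GenBy (d + 1) Γ ∧ NoMin Γ := by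
  have hfg := hd.fg
  by_cases hR : ∃ R : Subgroup G, R.Normal ∧ R.FiniteIndex ∧
      ∀ K : Subgroup G, K.FiniteIndex → R ≤ K
  · obtain ⟨R, h1, h2, h3⟩ := hR
    obtain ⟨M, hM, C, hC, hinf⟩ := exists_mono R h3
    let y : ℕ → G ⧸ M := fun k => (Infinite.natEmbedding C k).1
    have hy : ∀ i, y i ∈ C := fun i => (Infinite.natEmbedding C i).2
    have hinj : Function.Injective y := fun i j h =>
      (Infinite.natEmbedding C).injective (Subtype.ext h)
    have hs : Function.Surjective (QuotientGroup.mk' M) := QuotientGroup.mk'_surjective M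
    have hW' : Sat W (G ⧸ M) := hW.of_surjective _ hs
    have hd' : GenBy d (G ⧸ M) := hd.of_surjective _ hs
    refine ⟨⟨fun k => D (fun i : Fin k => y i), fun k => inferInstance, fun k => ⟨?_, ?_⟩, ?_⟩,
      D y, inferInstance, ?_, genBy_D hd' y, noMin_D hC hy hinj⟩
    · exact (hW'.pi (Fin k)).of_injective (D fun i : Fin k => y i).subtype
        (Subgroup.subtype_injective _)
    · exact genBy_D hd' _
    · rintro k l ⟨φ⟩
      have e := Mn_equiv φ
      rw [Mn_D (y := fun i : Fin k => y i) hC (fun i => hy i)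
          (fun i j h => Fin.val_injective (hinj h)),
        Mn_D (y := fun i : Fin l => y i) hC (fun i => hy i)
          (fun i j h => Fin.val_injective (hinj h))] at e
      simpa using e
    · exact (hW'.pi ℕ).of_injective (D y).subtype (Subgroup.subtype_injective _)
  · obtain ⟨N, h1, h2, h3⟩ := desc hR
    refine ⟨⟨fun k => G ⧸ N k, fun k => inferInstance, fun k => ⟨?_, ?_⟩, ?_⟩,
      G, inferInstance, hW, hd.succ, N, h1, h3⟩
    · exact hW.of_surjective _ (QuotientGroup.mk'_surjective (N k))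
    · exact hd.succ.of_surjective _ (QuotientGroup.mk'_surjective (N k))
    · have hanti : StrictMono fun k => (N k).index := by
        intro i j hij
        have := h2 j
        exact Subgroup.index_strictAnti (h3 hij)
      rintro k l ⟨φ⟩
      apply hanti.injective
      exact Nat.card_congr φ.toEquiv

end Pool.Agent.V7H56.BG
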