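import Mathlib

set_option autoImplicit false

/-!
# Groups with a least nontrivial normal subgroup, and diagonal-type subgroups of their powers
-/

namespace Pool.Agent.V7H56.BG

open Subgroup

variable {H : Type*} [Group H]

/-- `C` is the least nontrivial normal subgroup of `H`, and it is not abelian -/
structure Mono (C : Subgroup H) : Prop where
  normal : C.Normal
  least : ∀ N : Subgroup H, N.Normal → N ≠ ⊥ → C ≤ N
  nonab : ∃ x ∈ C, ∃ y ∈ C, x * y ≠ y * x

variable {C : Subgroup H}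

lemma Mono.ne_bot (h : Mono C) : C ≠ ⊥ := by
  obtain ⟨x, hx, y, hy, hxy⟩ := h.nonab
  rintro rfl
  rw [mem_bot] at hx hy
  subst hx
  subst hy
  exact hxy rfl

lemma Mono.centralizer (h : Mono C) {x : H} (hx : ∀ c ∈ C, x * c = c * x) : x = 1 := by
  have := h.normal
  by_contra hne
  have h1 : Subgroup.centralizer (C : Set H) ≠ ⊥ := by
    intro he
    have h2 : x ∈ Subgroup.centralizer (C : Set H) := by
      rw [Subgroup.mem_centralizer_iff]
      intro c hc
      exact (hx c hc).symm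
    rw [he, mem_bot] at h2
    exact hne h2
  have h3 := h.least _ inferInstance h1
  obtain ⟨a, ha, b, hb, hab⟩ := h.nonab
  have h4 := h3 ha
  rw [Subgroup.mem_centralizer_iff] at h4
  exact hab (h4 b hb).symm

lemma Mono.domain (h : Mono C) {x y : H} (hx : x ≠ 1) (hy : y ≠ 1) :
    ∃ g : H, x * (g * y * g⁻¹) ≠ (g * y * g⁻¹) * x := by
  by_contra hcon
  push Not at hcon
  apply hx
  apply h.centralizer
  intro c hc
  have h1 : Subgroup.normalClosure {y} ≠ ⊥ := by
    intro he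
    have h2 : y ∈ Subgroup.normalClosure {y} := Subgroup.subset_normalClosure rfl
    rw [he, mem_bot] at h2
    exact hy h2
  have h3 := h.least _ inferInstance h1 hc
  have h4 : Subgroup.normalClosure {y} ≤ Subgroup.centralizer {x} := by
    rw [Subgroup.normalClosure, Subgroup.closure_le]
    intro z hz
    rw [Group.mem_conjugatesOfSet_iff] at hz
    obtain ⟨w, hw, hz⟩ := hz
    rw [Set.mem_singleton_iff] at hw
    subst hw
    obtain ⟨g, hg⟩ := isConj_iff.1 hz
    rw [← hg]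
    show _ ∈ Subgroup.centralizer {x}
    rw [Subgroup.mem_centralizer_iff]
    intro t ht
    rw [Set.mem_singleton_iff] at ht
    subst ht
    exact hcon g
  have h5 := h4 h3
  rw [Subgroup.mem_centralizer_iff] at h5
  exact h5 x rfl

variable {ι : Type*}

/-- the constant functions -/
def cst (ι : Type*) (H : Type*) [Group H] : H →* (ι → H) where
  toFun h := fun _ => h
  map_one' := rfl
  map_mul' _ _ := rfl

@[simp] lemma cst_apply (h : H) (i : ι) : cst ι H h i = h := rfl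

/-- the subgroup generated by the constant functions and `y` -/
def D (y : ι → H) : Subgroup (ι → H) := Subgroup.closure (Set.range (cst ι H) ∪ {y})

lemma cst_mem (y : ι → H) (h : H) : cst ι H h ∈ D y :=
  Subgroup.subset_closure (Or.inl ⟨h, rfl⟩)

lemma self_mem (y : ι → H) : y ∈ D y := Subgroup.subset_closure (Or.inr rfl)

lemma sep (hC : Mono C) {y : ι → H} (hy : ∀ i, y i ∈ C) (hinj : Function.Injective y) (j : ι)
    (F : Finset ι) : j ∉ F → ∃ z ∈ D y, (∀ i, z i ∈ C) ∧ (∀ i ∈ F, z i = 1) ∧ z j ≠ 1 := by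
  classical
  have hn := hC.normal
  induction F using Finset.induction_on with
  | empty =>
    intro _
    obtain ⟨c, hc, hc1⟩ : ∃ c ∈ C, c ≠ 1 := by
      by_contra h
      push Not at h
      exact hC.ne_bot ((Subgroup.eq_bot_iff_forall _).2 h)
    exact ⟨cst ι H c, cst_mem y c, fun _ => hc, fun i hi => by simp at hi, hc1⟩
  | insert i F hi ih =>
    intro hj
    rw [Finset.mem_insert, not_or] at hj
    obtain ⟨z, hz, hzC, hzF, hzj⟩ := ih hj.2
    have hu1 : y j * (y i)⁻¹ ≠ 1 := by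
      intro h
      exact hj.1 (hinj (mul_inv_eq_one.1 h))
    obtain ⟨g, hg⟩ := hC.domain hzj hu1
    let u : ι → H := cst ι H g * (y * cst ι H (y i)⁻¹) * (cst ι H g)⁻¹
    have hu : u ∈ D y := mul_mem (mul_mem (cst_mem y g) (mul_mem (self_mem y) (cst_mem y _)))
      (inv_mem (cst_mem y g))
    have huv : ∀ k, u k = g * (y k * (y i)⁻¹) * g⁻¹ := fun k => rfl
    refine ⟨z * u * z⁻¹ * u⁻¹, mul_mem (mul_mem (mul_mem hz hu) (inv_mem hz)) (inv_mem hu),
      fun k => ?_, fun k hk => ?_, ?_⟩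
    · have h1 : u k ∈ C := by
        rw [huv]
        exact hn.conj_mem _ (mul_mem (hy k) (inv_mem (hy i))) g
      exact mul_mem (mul_mem (mul_mem (hzC k) h1) (inv_mem (hzC k))) (inv_mem h1)
    · show z k * u k * (z k)⁻¹ * (u k)⁻¹ = 1
      rcases Finset.mem_insert.1 hk with rfl | hk
      · have h1 : u k = 1 := by rw [huv]; group
        rw [h1]; group
      · rw [hzF k hk]; group
    · show z j * u j * (z j)⁻¹ * (u j)⁻¹ ≠ 1
      intro h
      apply hg
      rw [← huv]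
      have h2 : z j * u j * (z j)⁻¹ = u j := mul_inv_eq_one.1 h
      calc z j * u j = z j * u j * (z j)⁻¹ * z j := by group
        _ = u j * z j := by rw [h2]

section Fin

variable [Finite ι] [DecidableEq ι]

lemma single_conj (j : ι) (h c : H) :
    cst ι H h * Pi.mulSingle j c * (cst ι H h)⁻¹ = Pi.mulSingle j (h * c * h⁻¹) := by
  funext i
  by_cases hi : i = j
  · subst hi
    simp
  · simp [Pi.mulSingle_eq_of_ne hi]

/-- a subgroup of `D y` normalised by the constants contains the `j`-th copy of `C` if it contains a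
nontrivial element of the `j`-th factor -/
lemma copy_le (hC : Mono C) (N : Subgroup (ι → H))
    (hN : ∀ x ∈ N, ∀ h : H, cst ι H h * x * (cst ι H h)⁻¹ ∈ N) {j : ι} {c : H} (hc : c ≠ 1)
    (h : Pi.mulSingle j c ∈ N) : ∀ c ∈ C, Pi.mulSingle j c ∈ N := by
  let A : Subgroup H := N.comap (MonoidHom.mulSingle (fun _ : ι => H) j)
  have hA : A.Normal := by
    constructor
    intro a ha g
    show Pi.mulSingle j (g * a * g⁻¹) ∈ N
    rw [← single_conj]
    exact hN _ ha g
  have h1 : A ≠ ⊥ := by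
    intro he
    have h2 : c ∈ A := h
    rw [he, mem_bot] at h2
    exact hc h2
  intro c hc
  exact hC.least A hA h1 hc

lemma single_mem (hC : Mono C) {y : ι → H} (hy : ∀ i, y i ∈ C) (hinj : Function.Injective y)
    (j : ι) : ∀ c ∈ C, Pi.mulSingle j c ∈ D y := by
  have := Fintype.ofFinite ι
  obtain ⟨z, hz, hzC, hzF, hzj⟩ := sep hC hy hinj j (Finset.univ.erase j) (by simp)
  have h1 : Pi.mulSingle j (z j) = z := by
    funext i
    by_cases hi : i = j
    · subst hi; simp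
    · rw [Pi.mulSingle_eq_of_ne hi, hzF i (by simp [hi])]
  refine copy_le hC (D y) (fun x hx h => mul_mem (mul_mem (cst_mem y h) hx)
    (inv_mem (cst_mem y h))) hzj (c := z j) ?_
  rw [h1]
  exact hz

/-- the `j`-th copy of `C` in `D y` -/
def Sj (C : Subgroup H) (y : ι → H) (j : ι) : Subgroup (D y) :=
  (C.map (MonoidHom.mulSingle (fun _ : ι => H) j)).subgroupOf (D y)

lemma mem_Sj {y : ι → H} {j : ι} {x : D y} : x ∈ Sj C y j ↔ ∃ c ∈ C, Pi.mulSingle j c = x.1 :=
  Iff.rfl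

lemma D_proj (y : ι → H) (x : ι → H) (hx : x ∈ D y) (j : ι) (c : H) :
    x * Pi.mulSingle j c * x⁻¹ = Pi.mulSingle j (x j * c * (x j)⁻¹) := by
  funext i
  by_cases hi : i = j
  · subst hi
    simp
  · simp [Pi.mulSingle_eq_of_ne hi]

lemma Sj_normal (hC : Mono C) (y : ι → H) (j : ι) : (Sj C y j).Normal := by
  constructor
  intro x hx g
  obtain ⟨c, hc, h⟩ := mem_Sj.1 hx
  refine mem_Sj.2 ⟨g.1 j * c * (g.1 j)⁻¹, hC.normal.conj_mem _ hc _, ?_⟩
  rw [← D_proj y g.1 g.2 j c, h]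
  rfl

/-- minimal normal subgroups -/
def Mn (G : Type*) [Group G] : Set (Subgroup G) :=
  {N | N.Normal ∧ N ≠ ⊥ ∧ ∀ K : Subgroup G, K.Normal → K ≠ ⊥ → K ≤ N → K = N}

lemma exists_Sj_le (hC : Mono C) {y : ι → H} (hy : ∀ i, y i ∈ C) (hinj : Function.Injective y)
    (N : Subgroup (D y)) (hN : N.Normal) (hb : N ≠ ⊥) : ∃ j, Sj C y j ≤ N := by
  obtain ⟨x, hx, hx1⟩ : ∃ x ∈ N, x ≠ 1 := by
    by_contra h
    push Not at h
    exact hb ((Subgroup.eq_bot_iff_forall _).2 h)
  obtain ⟨j, hj⟩ : ∃ j, x.1 j ≠ 1 := by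
    by_contra h
    push Not at h
    exact hx1 (Subtype.ext (funext h))
  obtain ⟨c, hc, hxc⟩ : ∃ c ∈ C, x.1 j * c ≠ c * x.1 j := by
    by_contra h
    push Not at h
    exact hj (hC.centralizer h)
  let s : D y := ⟨Pi.mulSingle j c, single_mem hC hy hinj j c hc⟩
  have h1 : x * s * x⁻¹ * s⁻¹ ∈ N := by
    have h2 : s * x⁻¹ * s⁻¹ ∈ N := hN.conj_mem _ (inv_mem hx) s
    have h3 : x * s * x⁻¹ * s⁻¹ = x * (s * x⁻¹ * s⁻¹) := by group
    rw [h3]
    exact mul_mem hx h2
  have h2 : (x * s * x⁻¹ * s⁻¹ : D y).1 = Pi.mulSingle j (x.1 j * c * (x.1 j)⁻¹ * c⁻¹) := by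
    show x.1 * Pi.mulSingle j c * x.1⁻¹ * (Pi.mulSingle j c)⁻¹ = _
    rw [D_proj y x.1 x.2 j c, ← Pi.mulSingle_inv, ← Pi.mulSingle_mul]
  refine ⟨j, fun t ht => ?_⟩
  obtain ⟨a, ha, hat⟩ := mem_Sj.1 ht
  have h3 : ∀ b ∈ C, Pi.mulSingle j b ∈ N.map (D y).subtype := by
    refine copy_le hC _ ?_ (c := x.1 j * c * (x.1 j)⁻¹ * c⁻¹) ?_ ?_
    · rintro _ ⟨w, hw, rfl⟩ h
      exact ⟨⟨cst ι H h, cst_mem y h⟩ * w * (⟨cst ι H h, cst_mem y h⟩ : D y)⁻¹,
        hN.conj_mem _ hw _, rfl⟩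
    · intro h
      apply hxc
      have h4 := mul_inv_eq_one.1 h
      calc x.1 j * c = x.1 j * c * (x.1 j)⁻¹ * x.1 j := by group
        _ = c * x.1 j := by rw [h4]
    · exact ⟨_, h1, h2⟩
  obtain ⟨w, hw, hwe⟩ := h3 a ha
  have h4 : w = t := Subtype.ext (by rw [← hat, ← hwe]; rfl)
  rw [← h4]
  exact hw

lemma Sj_ne_bot (hC : Mono C) {y : ι → H} (hy : ∀ i, y i ∈ C) (hinj : Function.Injective y)
    (j : ι) : Sj C y j ≠ ⊥ := by
  obtain ⟨c, hc, hc1⟩ : ∃ c ∈ C, c ≠ 1 := by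
    by_contra h
    push Not at h
    exact hC.ne_bot ((Subgroup.eq_bot_iff_forall _).2 h)
  intro he
  have h1 : (⟨Pi.mulSingle j c, single_mem hC hy hinj j c hc⟩ : D y) ∈ Sj C y j :=
    mem_Sj.2 ⟨c, hc, rfl⟩
  rw [he, mem_bot] at h1
  have h2 := congrFun (congrArg Subtype.val h1) j
  simp at h2
  exact hc1 h2

lemma Sj_le (hC : Mono C) {y : ι → H} (hy : ∀ i, y i ∈ C) (hinj : Function.Injective y)
    {i j : ι} (h : Sj C y i ≤ Sj C y j) : i = j := by
  by_contra hij
  obtain ⟨c, hc, hc1⟩ : ∃ c ∈ C, c ≠ 1 := by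
    by_contra h
    push Not at h
    exact hC.ne_bot ((Subgroup.eq_bot_iff_forall _).2 h)
  have h1 : (⟨Pi.mulSingle i c, single_mem hC hy hinj i c hc⟩ : D y) ∈ Sj C y i :=
    mem_Sj.2 ⟨c, hc, rfl⟩
  obtain ⟨b, hb, hbe⟩ := mem_Sj.1 (h h1)
  have h2 := congrFun hbe i
  rw [Pi.mulSingle_eq_of_ne hij] at h2
  simp at h2
  exact hc1 h2.symm

theorem Mn_D (hC : Mono C) {y : ι → H} (hy : ∀ i, y i ∈ C) (hinj : Function.Injective y) :
    (Mn (D y)).ncard = Nat.card ι := by
  have h1 : Mn (D y) = Set.range (Sj C y) := by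
    ext N
    constructor
    · rintro ⟨hN, hb, hm⟩
      obtain ⟨j, hj⟩ := exists_Sj_le hC hy hinj N hN hb
      exact ⟨j, hm _ (Sj_normal hC y j) (Sj_ne_bot hC hy hinj j) hj⟩
    · rintro ⟨j, rfl⟩
      refine ⟨Sj_normal hC y j, Sj_ne_bot hC hy hinj j, fun K hK hb hle => ?_⟩
      obtain ⟨i, hi⟩ := exists_Sj_le hC hy hinj K hK hb
      have := Sj_le hC hy hinj (hi.trans hle)
      subst this
      exact le_antisymm hle hi
  rw [h1, ← Set.image_univ, Set.ncard_image_of_injective _ (fun i j h => Sj_le hC hy hinj h.le),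
    Set.ncard_univ]

end Fin

lemma Mn_map {G K : Type*} [Group G] [Group K] (φ : G ≃* K) (N : Subgroup G) (hN : N ∈ Mn G) :
    φ.mapSubgroup N ∈ Mn K := by
  obtain ⟨h1, h2, h3⟩ := hN
  refine ⟨?_, ?_, ?_⟩
  · exact h1.map φ.toMonoidHom φ.surjective
  · intro h
    apply h2
    have := φ.mapSubgroup.injective (h.trans (map_bot φ.mapSubgroup).symm)
    exact this
  · intro L hL hb hle
    have h4 : φ.mapSubgroup.symm L ≤ N := by
      rw [← φ.mapSubgroup.symm_apply_apply N]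
      exact φ.mapSubgroup.symm.monotone hle
    have h5 : φ.mapSubgroup.symm L = N := by
      refine h3 _ ?_ ?_ h4
      · exact hL.map φ.symm.toMonoidHom φ.symm.surjective
      · intro h
        apply hb
        rw [← φ.mapSubgroup.apply_symm_apply L, h]
        exact map_bot φ.mapSubgroup
    rw [← h5]
    exact (φ.mapSubgroup.apply_symm_apply L).symm

lemma Mn_equiv {G K : Type*} [Group G] [Group K] (φ : G ≃* K) :
    (Mn G).ncard = (Mn K).ncard := by
  have h1 : Mn K = φ.mapSubgroup '' Mn G := by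
    ext L
    constructor
    · intro hL
      refine ⟨φ.mapSubgroup.symm L, ?_, φ.mapSubgroup.apply_symm_apply L⟩
      exact Mn_map φ.symm L hL
    · rintro ⟨N, hN, rfl⟩
      exact Mn_map φ N hN
  rw [h1, Set.ncard_image_of_injective _ φ.mapSubgroup.injective]

end Pool.Agent.V7H56.BG
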