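import Pool.Agent.V7H56.BG.Mono

set_option autoImplicit false

/-!
# Infinite finitely generated groups with a least subgroup of finite index
-/

namespace Pool.Agent.V7H56.BG

open Subgroup

/-- a finitely generated abelian group without proper subgroups of finite index is trivial -/
lemma comm_trivial {A : Type*} [CommGroup A] [Group.FG A]
    (h : ∀ K : Subgroup A, K.FiniteIndex → K = ⊤) : ∀ a : A, a = 1 := by
  have h0 : (powMonoidHom 2 : A →* A).range = ⊤ := by
    apply h
    have h1 : Finite (A ⧸ (powMonoidHom 2 : A →* A).range) := by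
      apply CommGroup.finite_of_fg_isMulTorsion
      intro x
      obtain ⟨a, rfl⟩ := QuotientGroup.mk_surjective x
      rw [isOfFinOrder_iff_pow_eq_one]
      refine ⟨2, by norm_num, ?_⟩
      rw [← QuotientGroup.mk_pow, QuotientGroup.eq_one_iff]
      exact ⟨a, rfl⟩
    exact finiteIndex_of_finite_quotient
  have h1 : ∃ r : ℤ, r - 1 ∈ Ideal.span {(2 : ℤ)} ∧
      ∀ n ∈ (⊤ : Submodule ℤ (Additive A)), r • n = (0 : Additive A) := by
    apply Submodule.exists_sub_one_mem_and_smul_eq_zero_of_fg_of_le_smul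
    · have : Module.Finite ℤ (Additive A) := Module.Finite.iff_addGroup_fg.2 inferInstance
      exact Module.Finite.fg_top
    · intro x _
      obtain ⟨b, hb⟩ : ∃ b : A, b ^ 2 = x.toMul := by
        have : x.toMul ∈ (powMonoidHom 2 : A →* A).range := by rw [h0]; trivial
        exact this
      have h2 : x = (2 : ℤ) • (Additive.ofMul b) := by
        apply Additive.toMul.injective
        rw [← hb, toMul_zsmul]
        exact (zpow_ofNat b 2).symm
      rw [h2]
      exact Submodule.smul_mem_smul (Ideal.subset_span rfl) trivial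
  obtain ⟨r, hr, hr0⟩ := h1
  have hr1 : r ≠ 0 := by
    rintro rfl
    rw [Ideal.mem_span_singleton] at hr
    norm_num at hr
  have h3 : Finite A := by
    apply CommGroup.finite_of_fg_isMulTorsion
    intro x
    rw [isOfFinOrder_iff_zpow_eq_one]
    exact ⟨r, hr1, hr0 (Additive.ofMul x) trivial⟩
  have h4 := h ⊥ inferInstance
  intro a
  have h5 : a ∈ (⊥ : Subgroup A) := by rw [h4]; trivial
  exact h5

theorem exists_mono {G : Type*} [Group G] [Group.FG G] [Infinite G] (R : Subgroup G)
    [hn : R.Normal] [hi : R.FiniteIndex] (hR : ∀ K : Subgroup G, K.FiniteIndex → R ≤ K) :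
    ∃ (M : Subgroup G) (_ : M.Normal) (C : Subgroup (G ⧸ M)), Mono C ∧ Infinite C := by
  classical
  obtain ⟨S, hS⟩ : R.FG := (Group.fg_iff_subgroup_fg R).1 inferInstance
  have hRb : ¬ R ≤ ⊥ := by
    intro h
    have h1 : R = ⊥ := le_bot_iff.1 h
    have h2 : Finite (G ⧸ R) := inferInstance
    rw [h1] at h2
    exact not_finite_iff_infinite.2 ‹Infinite G›
      (Finite.of_equiv _ (QuotientGroup.quotientBot (G := G)).toEquiv)
  obtain ⟨M, -, hM⟩ := zorn_le_nonempty₀ {M : Subgroup G | M.Normal ∧ ¬ R ≤ M} (by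
    intro c hc hchain y hy
    have hdir : DirectedOn (· ≤ ·) c := hchain.directedOn
    have hmem : ∀ x, x ∈ sSup c ↔ ∃ s ∈ c, x ∈ s := fun x =>
      Subgroup.mem_sSup_of_directedOn ⟨y, hy⟩ hdir
    refine ⟨sSup c, ⟨⟨fun x hx g => ?_⟩, fun hle => ?_⟩, fun z hz => le_sSup hz⟩
    · obtain ⟨s, hs, hxs⟩ := (hmem x).1 hx
      exact (hmem _).2 ⟨s, hs, (hc hs).1.conj_mem x hxs g⟩
    · have h1 : ∀ T : Finset G, (∀ t ∈ T, t ∈ sSup c) → ∃ s ∈ c, ∀ t ∈ T, t ∈ s := by
        intro T
        induction T using Finset.induction_on with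
        | empty => exact fun _ => ⟨y, hy, fun t ht => by simp at ht⟩
        | insert a T _ ih =>
          intro h
          obtain ⟨s, hs, hsT⟩ := ih fun t ht => h t (Finset.mem_insert_of_mem ht)
          obtain ⟨s', hs', has⟩ := (hmem a).1 (h a (Finset.mem_insert_self _ _))
          obtain ⟨u, hu, hsu, hs'u⟩ := hdir s hs s' hs'
          refine ⟨u, hu, fun t ht => ?_⟩
          rcases Finset.mem_insert.1 ht with rfl | ht
          · exact hs'u has
          · exact hsu (hsT t ht)
      obtain ⟨s, hs, hsS⟩ := h1 S fun t ht => hle (by rw [← hS]; exact Subgroup.subset_closure ht)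
      apply (hc hs).2
      rw [← hS, Subgroup.closure_le]
      exact hsS) ⊥ ⟨inferInstance, hRb⟩
  obtain ⟨⟨hMn, hMR⟩, hmax⟩ := hM
  have hmax' : ∀ N : Subgroup G, N.Normal → M ≤ N → N ≠ M → R ≤ N := by
    intro N hN hle hne
    by_contra h
    exact hne (le_antisymm (hmax ⟨hN, h⟩ hle) hle)
  let C : Subgroup (G ⧸ M) := R.map (QuotientGroup.mk' M)
  have hRtop : ∀ K : Subgroup R, K.FiniteIndex → K = ⊤ := by
    intro K hK
    have h1 : (K.map R.subtype).FiniteIndex := by
      rw [Subgroup.finiteIndex_iff, Subgroup.index_map_subtype]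
      exact mul_ne_zero hK.index_ne_zero hi.index_ne_zero
    rw [eq_top_iff]
    intro x _
    obtain ⟨z, hz, hzx⟩ := hR _ h1 x.2
    have : z = x := Subtype.ext hzx
    rw [← this]
    exact hz
  let ψ : R →* C := (QuotientGroup.mk' M).subgroupMap R
  have hψ : Function.Surjective ψ := (QuotientGroup.mk' M).subgroupMap_surjective R
  have hCtop : ∀ K : Subgroup C, K.FiniteIndex → K = ⊤ := by
    intro K hK
    have h1 : (K.comap ψ).FiniteIndex := by
      rw [Subgroup.finiteIndex_iff, Subgroup.index_comap_of_surjective K hψ]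
      exact hK.index_ne_zero
    have h2 := hRtop _ h1
    rw [eq_top_iff]
    intro x _
    obtain ⟨z, rfl⟩ := hψ x
    have : z ∈ K.comap ψ := by rw [h2]; trivial
    exact this
  have hCne : ¬ ∀ x : C, x = 1 := by
    intro h
    apply hMR
    intro x hx
    have h1 := congrArg Subtype.val (h (ψ ⟨x, hx⟩))
    exact (QuotientGroup.eq_one_iff x).1 h1
  refine ⟨M, hMn, C, ⟨hn.map _ (QuotientGroup.mk'_surjective M), ?_, ?_⟩, ?_⟩
  · intro N hN hNb
    have h1 : M ≤ N.comap (QuotientGroup.mk' M) := by
      intro x hx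
      show QuotientGroup.mk' M x ∈ N
      rw [show QuotientGroup.mk' M x = 1 from (QuotientGroup.eq_one_iff x).2 hx]
      exact N.one_mem
    have h2 : N.comap (QuotientGroup.mk' M) ≠ M := by
      intro h
      apply hNb
      rw [Subgroup.eq_bot_iff_forall]
      intro x hx
      obtain ⟨g, rfl⟩ := QuotientGroup.mk_surjective x
      have h3 : g ∈ N.comap (QuotientGroup.mk' M) := hx
      rw [h] at h3
      exact (QuotientGroup.eq_one_iff g).2 h3
    rw [Subgroup.map_le_iff_le_comap]
    exact hmax' _ (hN.comap _) h1 h2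
  · by_contra hcon
    push Not at hcon
    letI : CommGroup C := { (inferInstance : Group C) with
      mul_comm := fun a b => Subtype.ext (hcon a.1 a.2 b.1 b.2) }
    haveI : Group.FG C := Group.fg_of_surjective hψ
    exact hCne (comm_trivial hCtop)
  · by_contra hfin
    rw [not_infinite_iff_finite] at hfin
    have h1 := hCtop ⊥ inferInstance
    apply hCne
    intro x
    have : x ∈ (⊥ : Subgroup C) := by rw [h1]; trivial
    exact this

end Pool.Agent.V7H56.BG
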